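import Pool.Agent.Helper60.T3.Defs
import Pool.Agent.Helper29.BL.PS

/-!
# Packet T3-RESL: two coprime relations give a relation without one variable
-/

set_option autoImplicit false
set_option linter.unusedSectionVars false

open MvPolynomial

namespace Pool.Agent.Helper64.T3.RESL

open WeierstrassCurve Height Height.AdmissibleAbsValues
open Pool.Agent.Helper29.BL Pool.Agent.Helper92.Ru Pool.Agent.Helper42.SG
open Pool.Agent.Helper5.UN (hv)
open Pool.Agent.Helper60.HC (Lo)
open Pool.Agent.Helper60.T3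

noncomputable section

section algebra

variable {K : Type} [Field K] {σ : Type} [Fintype σ] [DecidableEq σ]

/-- the polynomials in the other variables -/
abbrev R0 (K : Type) [Field K] {σ : Type} (k : σ) : Type := MvPolynomial {l : σ // l ≠ k} K

/-- polynomials in the variable `k` -/
def ek (K : Type) [Field K] {σ : Type} [DecidableEq σ] (k : σ) :
    MvPolynomial σ K ≃ₐ[K] Polynomial (R0 K k) :=
  (renameEquiv K (Equiv.optionSubtypeNe k).symm).trans (optionEquivLeft K {l : σ // l ≠ k})

lemma ek_C (k : σ) (c : K) : ek K k (C c) = Polynomial.C (C c) := by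
  simp [ek]

lemma ek_X_self (k : σ) : ek K k (X k) = Polynomial.X := by
  simp [ek]

lemma ek_X_ne (k l : σ) (h : l ≠ k) : ek K k (X l) = Polynomial.C (X ⟨l, h⟩) := by
  simp [ek, Equiv.optionSubtypeNe_symm_of_ne h]

lemma natDegree_ek (k : σ) (p : MvPolynomial σ K) : (ek K k p).natDegree = p.degreeOf k := by
  have h1 : ek K k p = optionEquivLeft K {l : σ // l ≠ k}
      (rename (Equiv.optionSubtypeNe k).symm p) := rfl
  rw [h1, natDegree_optionEquivLeft]
  have h2 := degreeOf_rename_of_injective (p := p) (Equiv.optionSubtypeNe k).symm.injective k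
  rw [Equiv.optionSubtypeNe_symm_self] at h2
  exact h2

lemma ek_monomial (k : σ) (m : σ →₀ ℕ) (c : K) :
    ek K k (monomial m c) = Polynomial.C (C c * ∏ l : {l : σ // l ≠ k}, X l ^ m l.1) *
      Polynomial.X ^ m k := by
  rw [monomial_eq, Finsupp.prod_fintype _ _ (fun i => pow_zero _), map_mul, ek_C, map_prod,
    Fintype.prod_eq_mul_prod_subtype_ne _ k, map_pow, ek_X_self]
  have h : ∀ i : {i : σ // i ≠ k}, ek K k (X (i : σ) ^ m i) =
      Polynomial.C (X i ^ m i.1) := by
    intro i
    rw [map_pow, ek_X_ne k i i.2, ← Polynomial.C_pow]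
  rw [Finset.prod_congr rfl fun i _ => h i, ← map_prod, Polynomial.C_mul]
  ring

/-- the pairs: `(X_l, 1)` for the other variables -/
def yy (k : σ) {Ω : Type} [Field Ω] (j : R0 K k →+* Ω) (u : Fin 2 → Ω) (l : σ) : Fin 2 → Ω :=
  if h : l = k then u else ![j (X ⟨l, h⟩), 1]

lemma hv_yy (k : σ) {Ω : Type} [Field Ω] [Algebra K Ω] (j : R0 K k →+* Ω)
    (hj : ∀ c : K, j (C c) = algebraMap K Ω c) (u : Fin 2 → Ω) (E : σ → ℕ)
    (p : MvPolynomial σ K) (hp : p.degreeOf k ≤ E k) :
    hv (algebraMap K Ω) E p (yy k j u) =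
      ∑ i ∈ Finset.range (E k + 1), j ((ek K k p).coeff i) * (u 0 ^ i * u 1 ^ (E k - i)) := by
  have hcoef : ∀ i, (ek K k p).coeff i = ∑ m ∈ p.support,
      if m k = i then C (coeff m p) * ∏ l : {l : σ // l ≠ k}, X l ^ m l.1 else 0 := by
    intro i
    conv_lhs => rw [p.as_sum, map_sum, Polynomial.finsetSum_coeff]
    refine Finset.sum_congr rfl fun m _ => ?_
    rw [ek_monomial, Polynomial.coeff_C_mul, Polynomial.coeff_X_pow]
    by_cases h : m k = i
    · rw [if_pos h, if_pos h.symm, mul_one]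
    · rw [if_neg h, if_neg (fun hh => h hh.symm), mul_zero]
  unfold hv
  have hR : ∑ i ∈ Finset.range (E k + 1), j ((ek K k p).coeff i) * (u 0 ^ i * u 1 ^ (E k - i)) =
      ∑ m ∈ p.support, ∑ i ∈ Finset.range (E k + 1),
        (if m k = i then j (C (coeff m p) * ∏ l : {l : σ // l ≠ k}, X l ^ m l.1) *
          (u 0 ^ i * u 1 ^ (E k - i)) else 0) := by
    rw [Finset.sum_comm]
    refine Finset.sum_congr rfl fun i _ => ?_
    rw [hcoef, map_sum, Finset.sum_mul]
    refine Finset.sum_congr rfl fun m _ => ?_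
    split_ifs with h
    · rfl
    · rw [map_zero, zero_mul]
  rw [hR]
  refine Finset.sum_congr rfl fun m hm => ?_
  have hmk : m k ≤ E k := le_trans (by
    rw [degreeOf_eq_sup]; exact Finset.le_sup (f := fun m : σ →₀ ℕ => m k) hm) hp
  rw [Finset.sum_ite_eq, if_pos (Finset.mem_range.2 (Nat.lt_succ_of_le hmk)), map_mul, hj,
    mul_assoc]
  congr 1
  rw [Fintype.prod_eq_mul_prod_subtype_ne _ k, map_prod, mul_comm]
  have h1 : yy k j u k = u := by simp [yy]
  rw [h1]
  congr 1
  refine Finset.prod_congr rfl fun l _ => ?_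
  have h2 : yy k j u l = ![j (X l), 1] := by simp [yy, l.2]
  rw [h2]
  simp

/-- no common zero of two coprime polynomials -/
lemma no_zero (k : σ) (p q : MvPolynomial σ K) (hq : Irreducible q) (hd : 1 ≤ q.degreeOf k)
    (hqp : ¬ q ∣ p) (a b : σ → ℕ) (ha : a k = p.degreeOf k) (hb : b k = q.degreeOf k)
    (u : Fin 2 → AlgebraicClosure (FractionRing (R0 K k))) (hu : u ≠ 0)
    (h1 : hv (algebraMap K (AlgebraicClosure (FractionRing (R0 K k)))) a p
      (yy k (algebraMap (R0 K k) (AlgebraicClosure (FractionRing (R0 K k)))) u) = 0)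
    (h2 : hv (algebraMap K (AlgebraicClosure (FractionRing (R0 K k)))) b q
      (yy k (algebraMap (R0 K k) (AlgebraicClosure (FractionRing (R0 K k)))) u) = 0) : False := by
  have hinj : Function.Injective (algebraMap (R0 K k) (FractionRing (R0 K k))) :=
    IsFractionRing.injective _ _
  have htow : algebraMap (R0 K k) (AlgebraicClosure (FractionRing (R0 K k))) =
      (algebraMap (FractionRing (R0 K k)) (AlgebraicClosure (FractionRing (R0 K k)))).comp
        (algebraMap (R0 K k) (FractionRing (R0 K k))) :=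
    IsScalarTower.algebraMap_eq _ _ _
  have hinj2 : Function.Injective
      (algebraMap (R0 K k) (AlgebraicClosure (FractionRing (R0 K k)))) := by
    rw [htow]
    exact (algebraMap (FractionRing (R0 K k)) _).injective.comp hinj
  have hj : ∀ c : K, algebraMap (R0 K k) (AlgebraicClosure (FractionRing (R0 K k))) (C c) =
      algebraMap K (AlgebraicClosure (FractionRing (R0 K k))) c := by
    intro c
    rw [← MvPolynomial.algebraMap_eq, ← IsScalarTower.algebraMap_apply]
  rw [hv_yy k _ hj u a p ha.ge] at h1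
  rw [hv_yy k _ hj u b q hb.ge] at h2
  have hq' : Irreducible (ek K k q) := (MulEquiv.irreducible_iff (ek K k).toMulEquiv).2 hq
  have hqp' : ¬ ek K k q ∣ ek K k p := by
    rintro ⟨r, hr⟩
    apply hqp
    refine ⟨(ek K k).symm r, ?_⟩
    apply (ek K k).injective
    rw [map_mul, AlgEquiv.apply_symm_apply, hr]
  have hdq : (ek K k q).natDegree ≠ 0 := by rw [natDegree_ek]; omega
  by_cases h0 : u 1 = 0
  · have hu0 : u 0 ≠ 0 := by
      intro h
      apply hu
      funext i
      fin_cases i
      · exact h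
      · exact h0
    rw [Finset.sum_eq_single (b k)] at h2
    · rw [Nat.sub_self, pow_zero, mul_one] at h2
      rcases mul_eq_zero.1 h2 with h3 | h3
      · have h4 := hinj2 (h3.trans (map_zero _).symm)
        rw [hb, ← natDegree_ek, Polynomial.coeff_natDegree, Polynomial.leadingCoeff_eq_zero] at h4
        exact hq'.ne_zero h4
      · exact pow_ne_zero _ hu0 h3
    · intro i hi hib
      have : 0 < b k - i := by
        have := Finset.mem_range.1 hi
        omega
      rw [h0, zero_pow this.ne', mul_zero, mul_zero]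
    · intro h
      exact absurd (Finset.mem_range.2 (Nat.lt_succ_self _)) h
  · have key : ∀ (P : MvPolynomial σ K) (n : ℕ), n = P.degreeOf k →
        ∑ i ∈ Finset.range (n + 1),
          algebraMap (R0 K k) (AlgebraicClosure (FractionRing (R0 K k))) ((ek K k P).coeff i) *
            (u 0 ^ i * u 1 ^ (n - i)) = 0 →
        Polynomial.eval₂ (algebraMap (R0 K k) (AlgebraicClosure (FractionRing (R0 K k))))
          (u 0 / u 1) (ek K k P) = 0 := by
      intro P n hn hs
      rw [Polynomial.eval₂_eq_sum_range, natDegree_ek, ← hn]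
      have h5 : u 1 ^ n * (∑ i ∈ Finset.range (n + 1),
          algebraMap (R0 K k) (AlgebraicClosure (FractionRing (R0 K k))) ((ek K k P).coeff i) *
            (u 0 / u 1) ^ i) = 0 := by
        rw [← hs, Finset.mul_sum]
        refine Finset.sum_congr rfl fun i hi => ?_
        have hin : i ≤ n := Nat.lt_succ_iff.1 (Finset.mem_range.1 hi)
        have h6 : u 1 ^ n = u 1 ^ (n - i) * u 1 ^ i := by
          rw [← pow_add, Nat.sub_add_cancel hin]
        rw [h6, div_pow]
        field_simp
      exact (mul_eq_zero.1 h5).resolve_left (pow_ne_zero _ h0)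
    have e1 := key p (a k) ha h1
    have e2 := key q (b k) hb h2
    have hprim : (ek K k q).IsPrimitive := hq'.isPrimitive hdq
    have hirr : Irreducible ((ek K k q).map (algebraMap (R0 K k) (FractionRing (R0 K k)))) :=
      (hprim.irreducible_iff_irreducible_map_fraction_map).1 hq'
    have hnd : ¬ (ek K k q).map (algebraMap (R0 K k) (FractionRing (R0 K k))) ∣
        (ek K k p).map (algebraMap (R0 K k) (FractionRing (R0 K k))) := by
      intro h
      exact hqp' ((hprim.dvd_iff_fraction_map_dvd_fraction_map (FractionRing (R0 K k))).2 h)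
    obtain ⟨A, B, hAB⟩ := hirr.coprime_iff_not_dvd.2 hnd
    have h7 := congrArg (Polynomial.eval₂ (algebraMap (FractionRing (R0 K k))
      (AlgebraicClosure (FractionRing (R0 K k)))) (u 0 / u 1)) hAB
    rw [Polynomial.eval₂_add, Polynomial.eval₂_mul, Polynomial.eval₂_mul, Polynomial.eval₂_map,
      Polynomial.eval₂_map, ← htow, e1, e2, mul_zero, mul_zero, add_zero,
      Polynomial.eval₂_one] at h7
    exact zero_ne_one h7

end algebra

theorem t (hRL : S_RL) (hMC : S_MC) : S_RESL := by
  intro K _ _ σ _ _ D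
  obtain ⟨B, hB, hR⟩ := hRL K σ D
  obtain ⟨hM1, -, hM2, hM3⟩ := hMC K σ
  have hPB : 0 ≤ PS (fun v => Real.log (B v)) :=
    PS_nonneg hB.fin fun v => Real.log_nonneg (hB.one_le v)
  refine ⟨D + 2 * D ^ 2, PS (fun v => Real.log (B v)) + 2 * D + 1, by positivity, ?_⟩
  intro h g x i' A hh hg hhg hDh hDg hxh hxg hAh hAg hA
  have hC1 : A ≤ (PS (fun v => Real.log (B v)) + 2 * D + 1) * (1 + A) := by
    have : (0 : ℝ) ≤ D := Nat.cast_nonneg D
    nlinarith [mul_nonneg hPB hA, mul_nonneg this hA]
  by_cases hd1 : h.degreeOf i' = 0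
  · refine ⟨h, hh.ne_zero, fun i => (hDh i).trans (Nat.le_add_right _ _), fun i hi => ?_, hxh,
      hAh.trans hC1⟩
    have : i = i' := by simpa using hi
    rw [this, hd1]
  by_cases hd2 : g.degreeOf i' = 0
  · refine ⟨g, hg, fun i => (hDg i).trans (Nat.le_add_right _ _), fun i hi => ?_, hxg,
      hAg.trans hC1⟩
    have : i = i' := by simpa using hi
    rw [this, hd2]
  obtain ⟨mg, hmg⟩ := MvPolynomial.ne_zero_iff.1 hg
  obtain ⟨mh, hmh⟩ := MvPolynomial.ne_zero_iff.1 hh.ne_zero
  set p : MvPolynomial σ K := C (coeff mg g)⁻¹ * g with hp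
  set q : MvPolynomial σ K := C (coeff mh h)⁻¹ * h with hq
  have hgp : g = C (coeff mg g) * p := by
    rw [hp, ← mul_assoc, ← C_mul, mul_inv_cancel₀ hmg, C_1, one_mul]
  have hhq : h = C (coeff mh h) * q := by
    rw [hq, ← mul_assoc, ← C_mul, mul_inv_cancel₀ hmh, C_1, one_mul]
  have hp1 : ∃ m, coeff m p = 1 := ⟨mg, by rw [hp, coeff_C_mul, inv_mul_cancel₀ hmg]⟩
  have hq1 : ∃ m, coeff m q = 1 := ⟨mh, by rw [hq, coeff_C_mul, inv_mul_cancel₀ hmh]⟩
  have hpD : ∀ l, p.degreeOf l ≤ D := fun l => (degreeOf_C_mul_le _ _ _).trans (hDg l)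
  have hqD : ∀ l, q.degreeOf l ≤ D := fun l => (degreeOf_C_mul_le _ _ _).trans (hDh l)
  have hpk : 1 ≤ p.degreeOf i' := by
    have : g.degreeOf i' ≤ p.degreeOf i' := by
      conv_lhs => rw [hgp]
      exact degreeOf_C_mul_le _ _ _
    omega
  have hqk : 1 ≤ q.degreeOf i' := by
    have : h.degreeOf i' ≤ q.degreeOf i' := by
      conv_lhs => rw [hhq]
      exact degreeOf_C_mul_le _ _ _
    omega
  have hass : Associated q h := by
    refine ⟨Units.map (C : K →+* MvPolynomial σ K).toMonoidHom (Units.mk0 _ hmh), ?_⟩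
    change q * C (coeff mh h) = h
    rw [mul_comm]
    exact hhq.symm
  have hqirr : Irreducible q := hass.symm.irreducible hh
  have hqp : ¬ q ∣ p := by
    intro h1
    apply hhg
    rw [← hass.dvd_iff_dvd_left]
    rw [hgp]
    exact Dvd.dvd.mul_left h1 _
  have hxp : eval x p = 0 := by rw [hp, map_mul, hxg, mul_zero]
  have hxq : eval x q = 0 := by rw [hq, map_mul, hxh, mul_zero]
  obtain ⟨R, hRd, hRN, hRc, hRl⟩ := hR i' (fun l => p.degreeOf l) (fun l => q.degreeOf l) p q
    (fun l => ⟨hpD l, hqD l⟩) hpk hqk (fun l => le_rfl) (fun l => le_rfl)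
  have hR0 : R ≠ 0 := by
    intro h0
    obtain ⟨u, hu, e1, e2⟩ := hRN (AlgebraicClosure (FractionRing (R0 K i')))
      (yy i' (algebraMap (R0 K i') (AlgebraicClosure (FractionRing (R0 K i')))) 0)
      (by rw [h0]; simp [hv])
    have hup : Function.update
        (yy i' (algebraMap (R0 K i') (AlgebraicClosure (FractionRing (R0 K i')))) 0) i' u =
        yy i' (algebraMap (R0 K i') (AlgebraicClosure (FractionRing (R0 K i')))) u := by
      funext l
      by_cases hl : l = i'
      · subst hl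
        simp [yy]
      · simp [yy, hl]
    rw [hup] at e1 e2
    exact no_zero i' p q hqirr hqk hqp _ _ rfl rfl u hu e1 e2
  have hRx : eval x R = 0 := by
    classical
    have h1 := hRl AbsoluteValue.trivial x
    rw [hxp, hxq] at h1
    simp only [map_zero, zero_div, max_self, mul_zero] at h1
    exact (AbsoluteValue.eq_zero _).1 (le_antisymm h1 (AbsoluteValue.nonneg _ _))
  obtain ⟨hp2, hp3, -⟩ := hM1 p hp1
  obtain ⟨hq2, hq3, -⟩ := hM1 q hq1
  have hPp : PH p = PH g := hM3 _ _ (inv_ne_zero hmg)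
  have hPq : PH q = PH h := hM3 _ _ (inv_ne_zero hmh)
  have hpos1 : ∀ v : AbsoluteValue K ℝ, 0 < mc v p := fun v => one_pos.trans_le (hp2.one_le v)
  have hpos2 : ∀ v : AbsoluteValue K ℝ, 0 < mc v q := fun v => one_pos.trans_le (hq2.one_le v)
  have hpos3 : ∀ v : AbsoluteValue K ℝ, 0 < B v := fun v => one_pos.trans_le (hB.one_le v)
  have hlog : ∀ v : AbsoluteValue K ℝ,
      Real.log (B v * mc v p ^ q.degreeOf i' * mc v q ^ p.degreeOf i') =
      (Real.log (B v) + q.degreeOf i' * Real.log (mc v p)) +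
        p.degreeOf i' * Real.log (mc v q) := by
    intro v
    rw [Real.log_mul (mul_pos (hpos3 v) (pow_pos (hpos1 v) _)).ne' (pow_pos (hpos2 v) _).ne',
      Real.log_mul (hpos3 v).ne' (pow_pos (hpos1 v) _).ne', Real.log_pow, Real.log_pow]
  have hFS1 : FS fun v : AbsoluteValue K ℝ => (q.degreeOf i' : ℝ) * Real.log (mc v p) :=
    hp2.fin.const_mul _
  have hFS2 : FS fun v : AbsoluteValue K ℝ => (p.degreeOf i' : ℝ) * Real.log (mc v q) :=
    hq2.fin.const_mul _
  have hS : PlC (fun v : AbsoluteValue K ℝ =>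
      B v * mc v p ^ q.degreeOf i' * mc v q ^ p.degreeOf i') := by
    refine ⟨fun v => ?_, ?_⟩
    · exact one_le_mul_of_one_le_of_one_le (one_le_mul_of_one_le_of_one_le (hB.one_le v)
        (one_le_pow₀ (hp2.one_le v))) (one_le_pow₀ (hq2.one_le v))
    · simp only [hlog]
      exact (hB.fin.add hFS1).add hFS2
  have hPR : Real.log (PH R) ≤ PS (fun v : AbsoluteValue K ℝ => Real.log
      (B v * mc v p ^ q.degreeOf i' * mc v q ^ p.degreeOf i')) := by
    refine hM2 R _ hR0 hS fun v m => ?_
    have h1 := hRc v m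
    rw [max_eq_right (hp2.one_le v), max_eq_right (hq2.one_le v)] at h1
    exact h1
  simp only [hlog] at hPR
  rw [PS_add (hB.fin.add hFS1) hFS2, PS_add hB.fin hFS1, PS_const_mul, PS_const_mul, hp3, hq3,
    hPp, hPq] at hPR
  refine ⟨R, hR0, fun l => ?_, fun l hl => ?_, hRx, ?_⟩
  · refine (hRd l).trans ?_
    split_ifs with h1
    · exact Nat.zero_le _
    · have h2 : q.degreeOf i' * p.degreeOf l ≤ D * D := Nat.mul_le_mul (hqD _) (hpD _)
      have h3 : p.degreeOf i' * q.degreeOf l ≤ D * D := Nat.mul_le_mul (hpD _) (hqD _)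
      nlinarith
  · have h1 : l = i' := by simpa using hl
    have h2 := hRd l
    rw [if_pos h1] at h2
    omega
  · refine hPR.trans ?_
    have h1 : (q.degreeOf i' : ℝ) ≤ D := by exact_mod_cast hqD i'
    have h2 : (p.degreeOf i' : ℝ) ≤ D := by exact_mod_cast hpD i'
    have h3 : (q.degreeOf i' : ℝ) * Real.log (PH g) ≤ D * A :=
      (mul_le_mul_of_nonneg_left hAg (Nat.cast_nonneg _)).trans (mul_le_mul_of_nonneg_right h1 hA)
    have h4 : (p.degreeOf i' : ℝ) * Real.log (PH h) ≤ D * A :=
      (mul_le_mul_of_nonneg_left hAh (Nat.cast_nonneg _)).trans (mul_le_mul_of_nonneg_right h2 hA)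
    have h5 : (0 : ℝ) ≤ D := Nat.cast_nonneg D
    nlinarith [mul_nonneg hPB hA]

end

end Pool.Agent.Helper64.T3.RESL
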